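import Pool.Agent.W622.ETG.Lin

set_option autoImplicit false

/-!
Subtask EXC: exchange for minimal dependent sets consisting of one bad block and good blocks.
-/

namespace Pool.Agent.W290.ELG

open Module Pool.Agent.W622.ETG

section
variable {V : Type} [AddCommGroup V] [Module (ZMod 2) V] [Finite V] {e : V}

/-- a dependent set contains a minimal dependent set -/
theorem exists_min (S : Set (DSub V)) (hS : ¬ sSupIndep S) :
    ∃ D : Set (DSub V), D ⊆ S ∧ ¬ sSupIndep D ∧
      ∀ D' : Set (DSub V), D' ⊆ D → D' ≠ D → sSupIndep D' := by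
  obtain ⟨D, hD⟩ := (Set.toFinite {D : Set (DSub V) | D ⊆ S ∧ ¬ sSupIndep D}).exists_minimal
    ⟨S, le_rfl, hS⟩
  refine ⟨D, hD.prop.1, hD.prop.2, fun D' h1 h2 => ?_⟩
  by_contra hc
  exact h2 (le_antisymm h1 (hD.le_of_le ⟨h1.trans hD.prop.1, hc⟩ h1))

/-- adding a good block to a spanning independent set of blocks gives a minimal dependent set -/
theorem insert_min (hMD : S_MD) (A : Fam V) (hCB : CB e A)
    (hN : ∀ X, Block e A X → X ≠ ⊥) (T : Set (DSub V)) (hT : ∀ X ∈ T, Block e A X)
    (hI : sSupIndep T) (hS : sSup T = ⊤) (X : DSub V) (hX : Block e A X) (hG : Good A X)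
    (hXT : X ∉ T) : ¬ sSupIndep (insert X T) ∧
      ∀ D' : Set (DSub V), D' ⊆ insert X T → D' ≠ insert X T → sSupIndep D' := by
  have hdep : ¬ sSupIndep (insert X T) := by
    intro h
    have h1 := h (Set.mem_insert X T)
    rw [Set.insert_sdiff_of_mem _ (Set.mem_singleton X), Set.sdiff_singleton_eq_self hXT, hS] at h1
    exact hN X hX (disjoint_top.mp h1)
  refine ⟨hdep, ?_⟩
  obtain ⟨D, hD1, hD2, hD3⟩ := exists_min _ hdep
  have hblk : ∀ Z ∈ D, Block e A Z := by
    intro Z hZ
    rcases hD1 hZ with rfl | h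
    · exact hX
    · exact hT Z h
  have hXD : X ∈ D := by
    by_contra hc
    apply hD2
    refine hI.mono ?_
    intro Z hZ
    rcases hD1 hZ with rfl | h
    · exact absurd hZ hc
    · exact h
  have htop := hMD V e A D X hCB hblk hD2 hD3 hXD hG
  have hDe : D = insert X T := by
    refine le_antisymm hD1 ?_
    intro Y hY
    rcases hY with rfl | hY
    · exact hXD
    · by_contra hc
      have h1 := hI hY
      have h2 : sSup (D \ {X}) ≤ sSup (T \ {Y}) := by
        apply sSup_le_sSup
        rintro Z ⟨hZ, hZX⟩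
        rcases hD1 hZ with rfl | h
        · exact absurd rfl hZX
        · refine ⟨h, ?_⟩
          rintro rfl
          exact hc hZ
      rw [htop] at h2
      rw [top_le_iff.mp h2] at h1
      exact hN Y (hT Y hY) (disjoint_top.mp h1)
  rw [← hDe]
  exact hD3

/-- the dimensions of the members of a minimal dependent set of blocks -/
theorem min_dim (hMD : S_MD) (A : Fam V) (hCB : CB e A) (D : Finset (DSub V))
    (hT : ∀ X ∈ D, Block e A X) (hD : ¬ sSupIndep (D : Set (DSub V)))
    (hmin : ∀ D' : Set (DSub V), D' ⊆ (D : Set (DSub V)) → D' ≠ (D : Set (DSub V)) → sSupIndep D')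
    (X : DSub V) (hX : X ∈ D) (hG : Good A X) :
    ∑ Y ∈ D, finrank (ZMod 2) Y = finrank (ZMod 2) V + finrank (ZMod 2) X := by
  classical
  have h1 : sSup ((D : Set (DSub V)) \ {X}) = ⊤ :=
    hMD V e A D X hCB (fun Z hZ => hT Z hZ) hD hmin hX hG
  have h2 : sSupIndep ((D : Set (DSub V)) \ {X}) := by
    apply hmin _ Set.sdiff_subset
    intro h
    have : X ∈ (D : Set (DSub V)) \ {X} := by rw [h]; exact hX
    exact this.2 rfl
  have h3 : ((D.erase X : Finset (DSub V)) : Set (DSub V)) = (D : Set (DSub V)) \ {X} :=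
    Finset.coe_erase X D
  have h4 := idim (D.erase X) (by rw [h3]; exact h2)
  rw [h3, h1, finrank_top, finrank_Dl] at h4
  rw [h4, Finset.sum_erase_add D _ hX]

end

theorem t_EXC (hBNT : S_BNT) (hBDIS : S_BDIS) (hMD : S_MD) : S_EXC := by
  classical
  intro V _ _ _ e A F N hCB hF hN hdep hmin
  have hnb : ∀ X, Block e A X → X ≠ ⊥ := fun X hX => (hBNT V e A X hCB.mc hX).2
  have hNb : ∀ X ∈ N, Block e A X := fun X hX => (hN hX).1
  have hNg : ∀ X ∈ N, Good A X := fun X hX => (hN hX).2
  have hGF : ∀ X ∈ GB e A, X ≠ F := by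
    rintro X hX rfl
    exact hF.2 hX.2
  have hFN : F ∉ N := fun h => hGF F (hN h) rfl
  -- the circuit
  set D : Finset (DSub V) := insert F N with hD
  have hDc : (D : Set (DSub V)) = insert F (N : Set (DSub V)) := by rw [hD, Finset.coe_insert]
  rw [← hDc] at hdep hmin
  have hDb : ∀ X ∈ D, Block e A X := by
    intro X hX
    rcases Finset.mem_insert.mp hX with rfl | h
    · exact hF.1
    · exact hNb X h
  have hND : ∀ X ∈ N, X ∈ D := fun X hX => Finset.mem_insert_of_mem hX
  have hsum : ∀ X ∈ N, ∑ Y ∈ D, finrank (ZMod 2) Y = finrank (ZMod 2) V + finrank (ZMod 2) X :=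
    fun X hX => min_dim hMD A hCB D hDb hdep hmin X (hND X hX) (hNg X hX)
  -- two elements
  have hcard : 2 ≤ N.card := by
    by_contra hc
    have h1 : N.card = 0 ∨ N.card = 1 := by omega
    apply hdep
    rcases h1 with h1 | h1
    · rw [Finset.card_eq_zero] at h1
      rw [hDc, h1, Finset.coe_empty, insert_empty_eq]
      exact sSupIndep_singleton F
    · obtain ⟨X, hX⟩ := Finset.card_eq_one.mp h1
      have hXN : X ∈ N := by rw [hX]; exact Finset.mem_singleton_self X
      have h2 := hBDIS V e A X F hCB.mc (hN hXN) hF.1 (hGF X (hN hXN))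
      rw [hDc, hX, Finset.coe_singleton, sSupIndep_pair (hGF X (hN hXN)).symm]
      exact h2.symm
  obtain ⟨X₀, hX₀⟩ : N.Nonempty := Finset.card_pos.mp (by omega)
  obtain ⟨d, hd⟩ : ∃ d, d = finrank (ZMod 2) X₀ := ⟨_, rfl⟩
  have hNd : ∀ X ∈ N, finrank (ZMod 2) X = d := by
    intro X hX
    have h1 := hsum X hX
    have h2 := hsum X₀ hX₀
    omega
  have hd1 : 1 ≤ d := by
    rw [hd]
    exact Nat.one_le_iff_ne_zero.mpr fun h => hnb X₀ (hNb X₀ hX₀) (Submodule.finrank_eq_zero.mp h)
  -- the exchange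
  have hex : ∀ X ∈ GB e A, X ∉ N → ∀ Y ∈ N,
      ¬ sSupIndep (insert X ((D : Set (DSub V)) \ {Y})) ∧
      ∀ D' : Set (DSub V), D' ⊆ insert X ((D : Set (DSub V)) \ {Y}) →
        D' ≠ insert X ((D : Set (DSub V)) \ {Y}) → sSupIndep D' := by
    intro X hX hXN Y hY
    apply insert_min hMD A hCB hnb _ _ _ _ X hX.1 hX.2 _
    · intro Z hZ
      exact hDb Z hZ.1
    · apply hmin _ Set.sdiff_subset
      intro h
      have : Y ∈ (D : Set (DSub V)) \ {Y} := by rw [h]; exact hND Y hY
      exact this.2 rfl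
    · exact hMD V e A D Y hCB (fun Z hZ => hDb Z hZ) hdep hmin (hND Y hY) (hNg Y hY)
    · rintro ⟨h1, -⟩
      rcases Finset.mem_insert.mp (show X ∈ insert F N from h1) with h | h
      · exact hGF X hX h
      · exact hXN h
  refine ⟨d, hd1, hcard, ?_, ?_, ?_⟩
  · intro X hX
    by_cases hXN : X ∈ N
    · exact hNd X hXN
    · obtain ⟨h1, h2⟩ := hex X hX hXN X₀ hX₀
      obtain ⟨Z, hZ⟩ : (N.erase X₀).Nonempty := Finset.card_pos.mp (by
        rw [Finset.card_erase_of_mem hX₀]
        omega)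
      have hZN : Z ∈ N := Finset.mem_of_mem_erase hZ
      have hE : ((insert X (D.erase X₀) : Finset (DSub V)) : Set (DSub V)) =
          insert X ((D : Set (DSub V)) \ {X₀}) := by
        rw [Finset.coe_insert, Finset.coe_erase]
      rw [← hE] at h1 h2
      have hbl : ∀ W ∈ insert X (D.erase X₀), Block e A W := by
        intro W hW
        rcases Finset.mem_insert.mp hW with rfl | hW
        · exact hX.1
        · exact hDb W (Finset.mem_of_mem_erase hW)
      have h3 := min_dim hMD A hCB _ hbl h1 h2 X (Finset.mem_insert_self _ _) hX.2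
      have h4 := min_dim hMD A hCB _ hbl h1 h2 Z (Finset.mem_insert_of_mem
        (Finset.mem_erase.mpr ⟨(Finset.mem_erase.mp hZ).1, hND Z hZN⟩)) (hNg Z hZN)
      have h5 := hNd Z hZN
      omega
  · have h1 := hsum X₀ hX₀
    rw [hD, Finset.sum_insert hFN, Finset.sum_congr rfl hNd, Finset.sum_const, smul_eq_mul,
      hNd X₀ hX₀] at h1
    obtain ⟨t, ht⟩ : ∃ t, N.card = t + 1 := ⟨N.card - 1, by omega⟩
    rw [ht] at h1 ⊢
    have h2 : (t + 1) * d = t * d + d := by ring
    rw [Nat.add_sub_cancel]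
    omega
  · intro X hX hXN Y hY
    have h1 : insert F (insert X ((N : Set (DSub V)) \ {Y})) =
        insert X ((D : Set (DSub V)) \ {Y}) := by
      rw [Set.insert_comm, hDc, Set.insert_sdiff_of_notMem]
      intro h
      exact hFN (by rw [Set.mem_singleton_iff.mp h]; exact hY)
    rw [h1]
    exact hex X hX hXN Y hY

end Pool.Agent.W290.ELG
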